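import Pool.Agent.CMG.Stmts

set_option autoImplicit false

open Set Topology

namespace Pool.Agent.CMG.H26

open Pool.Agent.LSG Pool.Agent.CMG

section

variable {X : Type} [TopologicalSpace X] [CompactSpace X] [TopologicalSpace.MetrizableSpace X]
  [TotallyDisconnectedSpace X] [Nonempty X]

omit [Nonempty X] in
/-- a nonempty open set is split by a clopen set -/
theorem exists_split (hiso : ∀ x : X, ¬ IsOpen ({x} : Set X)) (A : Set X) (hA : IsOpen A)
    (hne : A.Nonempty) : ∃ W : Set X, IsClopen W ∧ (A ∩ W).Nonempty ∧ (A \ W).Nonempty := by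
  obtain ⟨x, hx⟩ := hne
  obtain ⟨y, hy, hyx⟩ : ∃ y ∈ A, y ≠ x := by
    by_contra h
    push Not at h
    have : A = {x} := by
      ext z
      exact ⟨fun hz => h z hz, fun hz => by rw [mem_singleton_iff.1 hz]; exact hx⟩
    exact hiso x (this ▸ hA)
  obtain ⟨W, hW, hxW, hWy⟩ := (loc_compact_Haus_tot_disc_of_zero_dim (H := X)).exists_subset_of_mem_open
    (show x ∈ ({y}ᶜ : Set X) from fun h => hyx (mem_singleton_iff.1 h).symm) isOpen_compl_singleton
  exact ⟨W, hW, ⟨x, hx, hxW⟩, ⟨y, hy, fun h => hWy h rfl⟩⟩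

omit [Nonempty X] in
/-- the step -/
theorem step (hiso : ∀ x : X, ¬ IsOpen ({x} : Set X)) {n : ℕ} (f : X → (Fin n → Bool))
    (hf : Continuous f) (hs : Function.Surjective f) (U : Set X) (hU : IsClopen U) :
    ∃ b : X → Bool, Continuous b ∧ (∀ s c, ∃ x, f x = s ∧ b x = c) ∧
      ∀ x y, f x = f y → b x = b y → (x ∈ U ↔ y ∈ U) := by
  classical
  have hcell : ∀ s, IsClopen (f ⁻¹' {s}) := fun s => (isClopen_discrete {s}).preimage hf
  have hW : ∀ s : Fin n → Bool, ∃ W : Set X, IsClopen W ∧ (f ⁻¹' {s} ∩ W).Nonempty ∧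
      (f ⁻¹' {s} \ W).Nonempty ∧
      (((f ⁻¹' {s} ∩ U).Nonempty ∧ (f ⁻¹' {s} \ U).Nonempty) → W = U) := by
    intro s
    by_cases h : (f ⁻¹' {s} ∩ U).Nonempty ∧ (f ⁻¹' {s} \ U).Nonempty
    · exact ⟨U, hU, h.1, h.2, fun _ => rfl⟩
    · obtain ⟨x, hx⟩ := hs s
      obtain ⟨W, hW1, hW2, hW3⟩ := exists_split hiso (f ⁻¹' {s}) (hcell s).isOpen ⟨x, hx⟩
      exact ⟨W, hW1, hW2, hW3, fun h' => absurd h' h⟩
  choose W hW1 hW2 hW3 hW4 using hW
  refine ⟨fun x => decide (x ∈ W (f x)), ?_, ?_, ?_⟩
  · have hB : IsClopen {x | x ∈ W (f x)} := by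
      have : {x | x ∈ W (f x)} = ⋃ s : Fin n → Bool, (f ⁻¹' {s} ∩ W s) := by
        ext x
        simp only [mem_iUnion, mem_inter_iff, mem_preimage, mem_singleton_iff]
        constructor
        · intro h
          exact ⟨f x, rfl, h⟩
        · rintro ⟨s, h1, h2⟩
          change x ∈ W (f x)
          rw [h1]
          exact h2
      rw [this]
      exact isClopen_iUnion_of_finite fun s => (hcell s).inter (hW1 s)
    rw [continuous_discrete_rng]
    intro c
    cases c with
    | false =>
      have : (fun x => decide (x ∈ W (f x))) ⁻¹' {false} = {x | x ∈ W (f x)}ᶜ := by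
        ext x
        simp
      rw [this]
      exact hB.compl.isOpen
    | true =>
      have : (fun x => decide (x ∈ W (f x))) ⁻¹' {true} = {x | x ∈ W (f x)} := by
        ext x
        simp
      rw [this]
      exact hB.isOpen
  · intro s c
    cases c with
    | false =>
      obtain ⟨x, hx1, hx2⟩ := hW3 s
      have hx1' : f x = s := hx1
      refine ⟨x, hx1', ?_⟩
      simp only [hx1', decide_eq_false_iff_not]
      exact hx2
    | true =>
      obtain ⟨x, hx1, hx2⟩ := hW2 s
      have hx1' : f x = s := hx1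
      refine ⟨x, hx1', ?_⟩
      simp only [hx1', decide_eq_true_eq]
      exact hx2
  · have key : ∀ x y, f x = f y → decide (x ∈ W (f x)) = decide (y ∈ W (f y)) → x ∈ U → y ∈ U := by
      intro x y hxy hb hx
      by_contra hy
      have h1 : W (f x) = U := hW4 (f x) ⟨⟨x, rfl, hx⟩, ⟨y, hxy.symm, hy⟩⟩
      have h2 : W (f y) = U := by rw [← hxy]; exact h1
      rw [h1, h2] at hb
      have h3 : decide (x ∈ U) = true := decide_eq_true hx
      have h4 : decide (y ∈ U) = false := decide_eq_false hy
      rw [h3, h4] at hb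
      exact Bool.noConfusion hb
    intro x y hxy hb
    exact ⟨key x y hxy hb, key y x hxy.symm hb.symm⟩

end

/-- **BRO** -/
theorem bro : BroStmt := by
  classical
  intro X _ _ _ _ _ hiso
  -- a separating sequence of clopen sets
  have hsep : ∃ U : ℕ → Set X, (∀ n, IsClopen (U n)) ∧ ∀ x y, x ≠ y → ∃ n, x ∈ U n ∧ y ∉ U n := by
    have hB := loc_compact_Haus_tot_disc_of_zero_dim (H := X)
    obtain ⟨S, hS1, hS2, hS3⟩ := hB.exists_countable
    have hne : S.Nonempty := by
      obtain ⟨x⟩ := (inferInstance : Nonempty X)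
      obtain ⟨v, hv, _, _⟩ := hS3.exists_subset_of_mem_open (mem_univ x) isOpen_univ
      exact ⟨v, hv⟩
    obtain ⟨U, hU⟩ := hS2.exists_eq_range hne
    refine ⟨U, fun n => hS1 (hU ▸ mem_range_self n), ?_⟩
    intro x y hxy
    obtain ⟨v, hv, hxv, hvy⟩ := hS3.exists_subset_of_mem_open
      (show x ∈ ({y}ᶜ : Set X) from fun h => hxy (mem_singleton_iff.1 h)) isOpen_compl_singleton
    rw [hU] at hv
    obtain ⟨n, rfl⟩ := hv
    exact ⟨n, hxv, fun h => hvy h rfl⟩
  obtain ⟨U, hU, hUs⟩ := hsep
  let S : ℕ → Type := fun n => {f : X → (Fin n → Bool) // Continuous f ∧ Function.Surjective f}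
  have hstep : ∀ n (f : S n), ∃ b : X → Bool, Continuous b ∧ (∀ s c, ∃ x, f.1 x = s ∧ b x = c) ∧
      ∀ x y, f.1 x = f.1 y → b x = b y → (x ∈ U n ↔ y ∈ U n) :=
    fun n f => step hiso f.1 f.2.1 f.2.2 (U n) (hU n)
  choose b hb1 hb2 hb3 using hstep
  let nx : ∀ n, S n → S (n + 1) := fun n f =>
    ⟨fun x => Fin.snoc (α := fun _ => Bool) (f.1 x) (b n f x), by
      refine ⟨?_, ?_⟩
      · refine continuous_pi fun i => ?_
        refine Fin.lastCases ?_ (fun j => ?_) i
        · simp only [Fin.snoc_last]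
          exact hb1 n f
        · simp only [Fin.snoc_castSucc]
          exact (continuous_apply j).comp f.2.1
      · intro s
        obtain ⟨x, hx1, hx2⟩ := hb2 n f (fun i => s i.castSucc) (s (Fin.last n))
        refine ⟨x, ?_⟩
        funext i
        refine Fin.lastCases ?_ (fun j => ?_) i
        · simp only [Fin.snoc_last]
          exact hx2
        · simp only [Fin.snoc_castSucc]
          rw [hx1]⟩
  let f0 : S 0 := ⟨fun _ => Fin.elim0, continuous_const, fun s =>
    ⟨Classical.arbitrary X, funext fun i => i.elim0⟩⟩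
  let f : ∀ n, S n := fun n => Nat.rec (motive := S) f0 nx n
  have hfs : ∀ n, f (n + 1) = nx n (f n) := fun n => rfl
  let F : X → (ℕ → Bool) := fun x n => b n (f n) x
  have hF : ∀ n x (i : Fin n), (f n).1 x i = F x i := by
    intro n
    induction n with
    | zero => intro x i; exact i.elim0
    | succ n ih =>
      intro x i
      rw [hfs]
      refine Fin.lastCases ?_ (fun j => ?_) i
      · change Fin.snoc (α := fun _ => Bool) ((f n).1 x) (b n (f n) x) (Fin.last n) = _
        rw [Fin.snoc_last]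
        rfl
      · change Fin.snoc (α := fun _ => Bool) ((f n).1 x) (b n (f n) x) j.castSucc = _
        rw [Fin.snoc_castSucc, ih x j]
        rfl
  have hFc : Continuous F := continuous_pi fun n => hb1 n (f n)
  have hFi : Function.Injective F := by
    intro x y hxy
    by_contra hne
    obtain ⟨n, hx, hy⟩ := hUs x y hne
    have h1 : (f n).1 x = (f n).1 y := by
      funext i
      rw [hF, hF, hxy]
    exact hy ((hb3 n (f n) x y h1 (congrFun hxy n)).1 hx)
  have hFs : Function.Surjective F := by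
    intro σ
    have hne : (⋂ n : ℕ, {x | ∀ i : Fin n, F x i = σ i}).Nonempty := by
      refine IsCompact.nonempty_iInter_of_sequence_nonempty_isCompact_isClosed _ ?_ ?_ ?_ ?_
      · intro n x hx i
        exact hx i.castSucc
      · intro n
        obtain ⟨x, hx⟩ := (f n).2.2 (fun i => σ i)
        exact ⟨x, fun i => by rw [← hF, hx]⟩
      · refine IsClosed.isCompact ?_
        simp only [ofPred_forall]
        exact isClosed_iInter fun i => isClosed_eq ((continuous_apply _).comp hFc) continuous_const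
      · intro n
        simp only [ofPred_forall]
        exact isClosed_iInter fun i => isClosed_eq ((continuous_apply _).comp hFc) continuous_const
    obtain ⟨x, hx⟩ := hne
    refine ⟨x, funext fun n => ?_⟩
    exact mem_iInter.1 hx (n + 1) (Fin.last n)
  exact ⟨hFc.homeoOfEquivCompactToT2 (f := Equiv.ofBijective F ⟨hFi, hFs⟩)⟩

end Pool.Agent.CMG.H26
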