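import Pool.Agent.CMG.Stmts

set_option autoImplicit false

namespace Pool.Agent.CMG.H26

open Pool.Agent.LSG Pool.Agent.CMG

theorem hom : HomStmt := by
  intro D _ x hx
  let f : ℤ →ₗ[ℤ] Additive D := LinearMap.toSpanSingleton ℤ (Additive D) (Additive.ofMul x)
  have hf : Function.Injective f := by
    rw [injective_iff_map_eq_zero]
    intro n hn
    have h1 : x ^ n = 1 := hn
    by_contra hne
    rcases lt_or_gt_of_ne hne with h | h
    · have h2 := hx n.natAbs (Int.natAbs_pos.2 hne)
      apply h2
      have h3 : ((n.natAbs : ℕ) : ℤ) = -n := by omega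
      rw [← zpow_natCast, h3, zpow_neg, h1, inv_one]
    · have h2 := hx n.natAbs (Int.natAbs_pos.2 hne)
      apply h2
      have h3 : ((n.natAbs : ℕ) : ℤ) = n := by omega
      rw [← zpow_natCast, h3, h1]
  let g : ℤ →ₗ[ℤ] ℝ := LinearMap.toSpanSingleton ℤ ℝ 1
  obtain ⟨h, hh⟩ := Module.Baer.extension_property (Module.Baer.of_divisible (A := ℝ)) f hf g
  refine ⟨fun a => h (Additive.ofMul a), fun a b => ?_, ?_⟩
  · change h (Additive.ofMul a + Additive.ofMul b) = _
    rw [map_add]
  · have h1 := LinearMap.congr_fun hh 1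
    have h2 : f 1 = Additive.ofMul x := one_smul _ _
    have h3 : g 1 = 1 := one_smul _ _
    rw [LinearMap.comp_apply, h2, h3] at h1
    exact h1

end Pool.Agent.CMG.H26
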