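import Pool.Agent.CMG.Stmts

set_option autoImplicit false

open Set Topology MeasureTheory

namespace Pool.Agent.CMG.H26

open Pool.Agent.LSG Pool.Agent.CMG

theorem opb (hchr : ChrStmt) (hsur : SurStmt) (hhom : HomStmt) : OpbStmt := by
  intro K _ _ _ _ _ hcomm χ hχ
  have hinf : ∀ n : ℕ, 0 < n → χ ^ n ≠ 1 := by
    intro n hn h
    obtain ⟨k, hk⟩ := hχ n hn
    apply hk
    have key : ∀ m : ℕ, (χ ^ m) k = (χ k) ^ m := by
      intro m
      induction m with
      | zero => rw [pow_zero, pow_zero]; rfl
      | succ m ih => rw [pow_succ, pow_succ, ← ih]; rfl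
    rw [← key, h]
    rfl
  obtain ⟨h, hadd, hone⟩ := hhom (K →ₜ* Circle) χ hinf
  let e : ℝ → ↥(homs (K →ₜ* Circle)) := fun t => ⟨fun d => Circle.exp (t * h d), by
    intro a b
    change Circle.exp (t * h (a * b)) = Circle.exp (t * h a) * Circle.exp (t * h b)
    rw [hadd, mul_add, Circle.exp_add]⟩
  have hγ : ∀ t, ∃ k : K, ∀ d : K →ₜ* Circle, (e t).1 d = d k := fun t => hsur K hcomm (e t)
  choose γ hγ using hγ
  let j : K → ((K →ₜ* Circle) → Circle) := fun k d => d k
  have hjc : Continuous j := continuous_pi fun d => d.continuous_toFun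
  have hji : Function.Injective j := by
    intro a b hab
    by_contra hne
    have h1 : a * b⁻¹ ≠ 1 := fun h => hne (mul_inv_eq_one.1 h)
    obtain ⟨d, hd⟩ := hchr K hcomm _ h1
    apply hd
    have h2 : d a = d b := congrFun hab d
    rw [map_mul, map_inv, h2, mul_inv_cancel]
  have hje : Topology.IsClosedEmbedding j := hjc.isClosedEmbedding hji
  refine ⟨γ, ?_, ?_, 1, ?_⟩
  · rw [hje.isInducing.continuous_iff]
    refine continuous_pi fun d => ?_
    have h3 : (fun t => (j ∘ γ) t d) = fun t => Circle.exp (t * h d) :=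
      funext fun t => (hγ t d).symm
    rw [h3]
    exact Circle.exp.continuous.comp (continuous_id.mul continuous_const)
  · intro s t
    apply hji
    funext d
    change d (γ (s + t)) = d (γ s * γ t)
    rw [map_mul, ← hγ, ← hγ, ← hγ]
    change Circle.exp ((s + t) * h d) = Circle.exp (s * h d) * Circle.exp (t * h d)
    rw [add_mul, Circle.exp_add]
  · intro h1
    have h2 := hγ 1 χ
    rw [h1, map_one] at h2
    have h3 : Circle.exp (1 * h χ) = 1 := h2
    rw [hone, mul_one] at h3
    have h4 := Circle.exp_eq_exp.1 (h3.trans Circle.exp_zero.symm)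
    obtain ⟨m, hm⟩ := h4
    have hpi := Real.pi_gt_three
    rw [zero_add] at hm
    rcases lt_trichotomy m 0 with h5 | h5 | h5
    · have : (m : ℝ) ≤ -1 := by exact_mod_cast Int.le_sub_one_of_lt h5
      nlinarith
    · rw [h5] at hm
      norm_num at hm
    · have : (1 : ℝ) ≤ m := by exact_mod_cast h5
      nlinarith

end Pool.Agent.CMG.H26
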